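import Mathlib
import Pool.Agent.W346.HB.T1G

/-!
# Local points at the large primes: arbitrary quadratic forms in two variables

Part ELSBG of project HB.
-/

set_option autoImplicit false
set_option linter.all false

namespace Pool.Agent.W346.HB

open Finset Polynomial
open Pool.Agent.W313.BMX (Splits)
open Pool.Agent.W313.HB
open Pool.Agent.W613.HBT
open Pool.Agent.W356.HBW (real_est aeval_mul_hom splits_sq)

variable {n : ℕ}

theorem exists_eval_ne (F : MvPolynomial (Fin (n + 1)) ℤ) (hF : F ≠ 0) :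
    ∃ v : Fin (n + 1) → ℤ, MvPolynomial.eval v F ≠ 0 := by
  by_contra h
  push Not at h
  apply hF
  exact MvPolynomial.funext fun v => by rw [h v, map_zero]

theorem A_ne_zero {α δ : ℕ} (A B D : MvPolynomial (Fin (n + 1)) ℤ)
    (hB : B.IsHomogeneous (α + δ)) (hαδ : 1 ≤ α + δ)
    (hsq : Squarefree (MvPolynomial.map (Int.castRingHom ℚ) (B ^ 2 - A * D))) : A ≠ 0 := by
  rintro rfl
  rw [zero_mul, sub_zero, map_pow, sq] at hsq
  have hu := hsq _ (dvd_refl _)
  have h1 : IsUnit (MvPolynomial.eval (fun _ => (0 : ℚ)) (MvPolynomial.map (Int.castRingHom ℚ) B)) :=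
    hu.map (MvPolynomial.eval (fun _ => (0 : ℚ)))
  have h2 : MvPolynomial.eval (fun _ => (0 : ℚ)) (MvPolynomial.map (Int.castRingHom ℚ) B) = 0 := by
    have h3 := aeval_mul_hom B hB (0 : ℚ) (fun _ => (1 : ℚ))
    simp only [zero_mul, zero_pow (by omega : α + δ ≠ 0)] at h3
    rw [MvPolynomial.eval_map]
    rw [MvPolynomial.aeval_def] at h3
    exact h3
  rw [h2] at h1
  exact not_isUnit_zero h1

theorem elsbg_ (hex : S_EXIST) (hl : S_LDEG) (hd : S_DISC) : S_ELSBG := by
  intro n α δ A B D hA hB hD hαδ hsq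
  have hA0 := A_ne_zero A B D hB hαδ hsq
  obtain ⟨G, hG⟩ : ∃ G : MvPolynomial (Fin (n + 1)) ℤ, G = B ^ 2 - A * D := ⟨_, rfl⟩
  have hF : G.IsHomogeneous (2 * (α + δ)) := by
    rw [hG]
    refine MvPolynomial.IsHomogeneous.sub ?_ ?_
    · have := hB.pow 2
      rwa [mul_comm] at this
    · have := hA.mul hD
      rwa [← mul_add] at this
  rw [← hG] at hsq ⊢
  have hG0 : G ≠ 0 := by
    rintro h
    rw [h, map_zero] at hsq
    exact hsq.ne_zero rfl
  obtain ⟨v, hv⟩ := exists_eval_ne (A * G) (mul_ne_zero hA0 hG0)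
  rw [map_mul] at hv
  have hvA := left_ne_zero_of_mul hv
  have hvG := right_ne_zero_of_mul hv
  obtain ⟨r, hr0, hrw⟩ := hd n _ G hF hsq v hvG
  obtain ⟨w, hw⟩ := exists_eval_ne r hr0
  obtain ⟨a1, b1, hab⟩ := hrw w
  obtain ⟨d1, l1, e1⟩ := hl n _ A hA w v hvA
  obtain ⟨d2, l2, e2⟩ := hl n _ G hF w v hvG
  have hPA : lineP A w v ≠ 0 := by
    intro h
    rw [h, leadingCoeff_zero] at l1
    exact hvA l1.symm
  have hP : lineP G w v ≠ 0 := by
    intro h
    rw [h, leadingCoeff_zero] at l2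
    exact hvG l2.symm
  have hgood : Good (lineP G w v) := by
    refine ⟨?_, by rw [d2]; omega⟩
    have := sep_of_comb (Int.castRingHom ℚ) _ a1 b1 1 _ hab (by
      rw [one_mul, eq_intCast]
      exact_mod_cast hw)
    rwa [C_1, one_mul, comp_X] at this
  obtain ⟨z0, hz0⟩ := hex (lineP G w v) (lineP G w v * lineP A w v) hgood (mul_ne_zero hP hPA)
  refine ⟨max z0 3, fun p hp hpz a ha => ?_⟩
  obtain ⟨t, -, ht1, ht2⟩ := hz0 p hp.out ((le_max_left _ _).trans hpz) 1 (Or.inl rfl)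
  have hp2 : p ≠ 2 := by
    have := (le_max_right z0 3).trans hpz
    omega
  rw [eval_mul] at ht2
  have hG1 : MvPolynomial.eval (fun i => w i + (t : ℤ) * v i) G ≠ 0 := by
    rw [← e2]
    intro h
    exact ht2 (by rw [h, zero_mul]; exact dvd_zero _)
  have hA1 : MvPolynomial.eval (fun i => w i + (t : ℤ) * v i) A ≠ 0 := by
    rw [← e1]
    intro h
    exact ht2 (by rw [h, mul_zero]; exact dvd_zero _)
  refine ⟨fun i => (((w i + (t : ℤ) * v i : ℤ)) : ℚ_[p]), Set.mem_univ _, ?_, ?_, ?_⟩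
  · rw [aeval_cast]
    exact_mod_cast hA1
  · rw [aeval_cast]
    exact_mod_cast hG1
  · rw [aeval_cast, aeval_cast, Int.cast_one, one_mul]
    refine sq_of_jac p hp2 _ ?_ _
    rw [← e2]
    exact ht1

end Pool.Agent.W346.HB
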